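import Pool.Agent.P8H80.QN.Stm

set_option autoImplicit false

namespace Pool.Agent.P8H20.QN

open Pool.Agent.P8H80.QN

theorem exists_perp {n : ℕ} (hn : 2 ≤ n) (x : E n) : ∃ e : E n, ‖e‖ = 1 ∧ inner ℂ x e = 0 := by
  have h : (Submodule.span ℂ {x})ᗮ ≠ ⊥ := by
    intro h
    rw [Submodule.orthogonal_eq_bot_iff] at h
    have h1 : Module.finrank ℂ (Submodule.span ℂ ({x} : Set (E n))) ≤ 1 := by
      have := finrank_span_le_card (R := ℂ) ({x} : Set (E n))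
      simpa using this
    rw [h, finrank_top, finrank_euclideanSpace_fin] at h1
    omega
  obtain ⟨u, hu, hu0⟩ := Submodule.exists_mem_ne_zero_of_ne_bot h
  refine ⟨((‖u‖ : ℂ))⁻¹ • u, ?_, ?_⟩
  · rw [norm_smul, norm_inv, Complex.norm_real, norm_norm, inv_mul_cancel₀ (norm_ne_zero_iff.2 hu0)]
  · rw [inner_smul_right, (Submodule.mem_orthogonal_singleton_iff_inner_right.1 hu), mul_zero]

theorem inner_formula {n : ℕ} {x e : E n} (hx : ‖x‖ = 1) (he : ‖e‖ = 1) (hxe : inner ℂ x e = 0)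
    (q c a b : ℂ) :
    inner ℂ ((starRingEnd ℂ) q • x + (starRingEnd ℂ) c • e) (a • x + b • e) = q * a + c * b := by
  have hex : inner ℂ e x = (0 : ℂ) := by
    rw [← inner_conj_symm, hxe, map_zero]
  have h1 : inner ℂ x x = (1 : ℂ) := by
    rw [inner_self_eq_norm_sq_to_K, hx]; norm_num
  have h2 : inner ℂ e e = (1 : ℂ) := by
    rw [inner_self_eq_norm_sq_to_K, he]; norm_num
  rw [inner_add_left, inner_add_right, inner_add_right, inner_smul_left, inner_smul_left,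
    inner_smul_left, inner_smul_left, inner_smul_right, inner_smul_right, inner_smul_right,
    inner_smul_right, hxe, hex, h1, h2, Complex.conj_conj, Complex.conj_conj]
  ring

theorem core {n : ℕ} {x e : E n} (hx : ‖x‖ = 1) (he : ‖e‖ = 1) (hxe : inner ℂ x e = 0)
    (q c : ℂ) (hqc : ‖q‖ ^ 2 + ‖c‖ ^ 2 = 1) :
    ‖(starRingEnd ℂ) q • x + (starRingEnd ℂ) c • e‖ = 1 := by
  have h := inner_formula hx he hxe q c ((starRingEnd ℂ) q) ((starRingEnd ℂ) c)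
  rw [inner_self_eq_norm_sq_to_K, Complex.mul_conj, Complex.mul_conj, Complex.normSq_eq_norm_sq,
    Complex.normSq_eq_norm_sq] at h
  have h2 : ‖(starRingEnd ℂ) q • x + (starRingEnd ℂ) c • e‖ ^ 2 = ‖q‖ ^ 2 + ‖c‖ ^ 2 := by
    have h3 : ((‖(starRingEnd ℂ) q • x + (starRingEnd ℂ) c • e‖ ^ 2 : ℝ) : ℂ) =
        ((‖q‖ ^ 2 + ‖c‖ ^ 2 : ℝ) : ℂ) := by
      push_cast at h ⊢
      exact h
    exact Complex.ofReal_injective h3
  rw [hqc] at h2
  have h0 := norm_nonneg ((starRingEnd ℂ) q • x + (starRingEnd ℂ) c • e)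
  nlinarith

theorem t_CIR : S_CIR := by
  intro n T q x w hn hq hq1 hx hw
  obtain ⟨l, hl⟩ : ∃ l, l = inner ℂ x (T x) := ⟨_, rfl⟩
  rw [← hl] at hw
  obtain ⟨v, hv⟩ : ∃ v, v = T x - l • x := ⟨_, rfl⟩
  rw [← hv] at hw
  have hTx : T x = l • x + v := by rw [hv]; abel
  have hxx : inner ℂ x x = (1 : ℂ) := by
    rw [inner_self_eq_norm_sq_to_K, hx]; norm_num
  have hxv : inner ℂ x v = (0 : ℂ) := by
    rw [hv, inner_sub_right, inner_smul_right, hxx, ← hl, mul_one, sub_self]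
  have hq0 : 0 < ‖q‖ := norm_pos_iff.2 hq
  have hs0 : 0 ≤ 1 - ‖q‖ ^ 2 := by nlinarith
  have hs2 : Real.sqrt (1 - ‖q‖ ^ 2) ^ 2 = 1 - ‖q‖ ^ 2 := Real.sq_sqrt hs0
  by_cases h0 : v = 0
  · rw [h0, norm_zero, mul_zero, norm_eq_zero, sub_eq_zero] at hw
    obtain ⟨e, he, hxe⟩ := exists_perp hn x
    obtain ⟨c, hc⟩ : ∃ c : ℂ, c = ((Real.sqrt (1 - ‖q‖ ^ 2) : ℝ) : ℂ) := ⟨_, rfl⟩
    have hc2 : ‖q‖ ^ 2 + ‖c‖ ^ 2 = 1 := by
      rw [hc, Complex.norm_real, Real.norm_of_nonneg (Real.sqrt_nonneg _), hs2]; ring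
    refine ⟨x, (starRingEnd ℂ) q • x + (starRingEnd ℂ) c • e, hx, core hx he hxe q c hc2, ?_, ?_⟩
    · have := inner_formula hx he hxe q c 1 0
      simpa using this
    · rw [hTx, h0, add_zero, hw]
      have := inner_formula hx he hxe q c l 0
      simpa using this
  · have hv0 : 0 < ‖v‖ := norm_pos_iff.2 h0
    have hvc : ((‖v‖ : ℝ) : ℂ) ≠ 0 := by exact_mod_cast hv0.ne'
    obtain ⟨e, he'⟩ : ∃ e : E n, e = (((‖v‖ : ℝ) : ℂ))⁻¹ • v := ⟨_, rfl⟩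
    have he : ‖e‖ = 1 := by
      rw [he', norm_smul, norm_inv, Complex.norm_real, norm_norm, inv_mul_cancel₀ hv0.ne']
    have hxe : inner ℂ x e = (0 : ℂ) := by rw [he', inner_smul_right, hxv, mul_zero]
    have hve : v = ((‖v‖ : ℝ) : ℂ) • e := by
      rw [he', smul_smul, mul_inv_cancel₀ hvc, one_smul]
    obtain ⟨c, hc⟩ : ∃ c : ℂ, c = q * (w - l) / ((‖v‖ : ℝ) : ℂ) := ⟨_, rfl⟩
    have hcn : ‖c‖ = Real.sqrt (1 - ‖q‖ ^ 2) := by
      rw [hc, norm_div, norm_mul, hw, Complex.norm_real, norm_norm]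
      field_simp
    have hc2 : ‖q‖ ^ 2 + ‖c‖ ^ 2 = 1 := by rw [hcn, hs2]; ring
    refine ⟨x, (starRingEnd ℂ) q • x + (starRingEnd ℂ) c • e, hx, core hx he hxe q c hc2, ?_, ?_⟩
    · have := inner_formula hx he hxe q c 1 0
      simpa using this
    · have h1 := inner_formula hx he hxe q c l ((‖v‖ : ℝ) : ℂ)
      rw [← hve, ← hTx] at h1
      rw [h1, hc, div_mul_cancel₀ _ hvc]
      ring

end Pool.Agent.P8H20.QN
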